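import Pool.Agent.Helper72.EP.Spec1

set_option autoImplicit false

namespace ErdPos

open Finset

theorem bas (h1 : ST_RK1) : ST_BAS := by
  intro V _ _ G F W q hH X k
  obtain ⟨_, hcard, hmono, hins, hsub, _, _⟩ := h1 V G F W q hH
  induction k with
  | zero =>
    intro _
    refine ⟨∅, empty_subset _, card_empty, ?_⟩
    have := hcard ∅
    rw [card_empty] at this
    omega
  | succ k ih =>
    intro hk
    obtain ⟨Y, hYX, hYc, hYr⟩ := ih (by omega)
    have hex : ∃ v ∈ X, rk G F W q Y < rk G F W q (insert v Y) := by
      by_contra hcon
      push Not at hcon
      have key : ∀ Z : Finset V, Z ⊆ X → rk G F W q (Y ∪ Z) ≤ rk G F W q Y := by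
        intro Z
        induction Z using Finset.induction_on with
        | empty => intro _; rw [union_empty]
        | insert v Z _ ihZ =>
          intro hZ
          have hv : v ∈ X := hZ (mem_insert_self _ _)
          have h2 := ihZ ((subset_insert _ _).trans hZ)
          have h3 := hcon v hv
          have h4 := hsub (Y ∪ Z) (insert v Y)
          have e1 : (Y ∪ Z) ∪ insert v Y = Y ∪ insert v Z := by
            ext x
            simp only [mem_union, mem_insert]
            tauto
          rw [e1] at h4
          have h5 : rk G F W q Y ≤ rk G F W q ((Y ∪ Z) ∩ insert v Y) :=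
            hmono _ _ (subset_inter subset_union_left (subset_insert _ _))
          omega
      have h2 := key X subset_rfl
      have h3 := hmono X (Y ∪ X) subset_union_right
      omega
    obtain ⟨v, hv, hlt⟩ := hex
    have hvY : v ∉ Y := by
      intro h
      rw [insert_eq_of_mem h] at hlt
      exact lt_irrefl _ hlt
    refine ⟨insert v Y, insert_subset hv hYX, ?_, ?_⟩
    · rw [card_insert_of_notMem hvY, hYc]
    · have := hins Y v
      omega

end ErdPos
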