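import Pool.Agent.Helper72.EP.Spec1

set_option autoImplicit false

namespace ErdPos

open Finset

theorem eng_ht {V : Type} [DecidableEq V] {F : Finset V → Prop} {W T : Finset V} {m : ℕ}
    (h : Ht F (W \ T) m) : Ht F W (m + T.card) := by
  obtain ⟨Z, hZ, h⟩ := h
  refine ⟨Z ∪ T, (card_union_le _ _).trans (Nat.add_le_add_right hZ _), fun M hM hMW => ?_⟩
  by_cases hMT : Disjoint M T
  · obtain ⟨v, hv, hvZ⟩ := h M hM (fun v hv =>
      mem_sdiff.2 ⟨hMW hv, Finset.disjoint_left.1 hMT hv⟩)
    exact ⟨v, hv, mem_union_left _ hvZ⟩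
  · rw [Finset.not_disjoint_iff] at hMT
    obtain ⟨v, hv, hvT⟩ := hMT
    exact ⟨v, hv, mem_union_right _ hvT⟩

theorem eng_prom {V : Type} [DecidableEq V] {G : SimpleGraph V} {F : Finset V → Prop}
    {R B : Finset V} {ρ : List V} (h : Prom G F R B ρ) : ρ.length ≤ 4 := by
  match ρ, h with
  | [], _ => simp
  | [a, b], _ => simp
  | [a, b, c, d], _ => simp
  | [a], h => exact h.elim
  | [a, b, c], h => exact h.elim
  | a :: b :: c :: d :: e :: l, h => exact h.elim

theorem eng_flatten {V : Type} (O : List (List V)) (h : ∀ o ∈ O, o.length ≤ 4) :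
    O.flatten.length ≤ 4 * O.length := by
  induction O with
  | nil => simp
  | cons a O ih =>
    have h1 := ih (fun o ho => h o (List.mem_cons_of_mem _ ho))
    have h2 := h a List.mem_cons_self
    rw [List.flatten_cons, List.length_append, List.length_cons]
    omega

theorem eng (h1 : ST_HAV) (h2 : ST_ITR) (h3 : ST_CLO1) (h4 : ST_FIN) : ST_ENG := by
  intro h x0
  choose θ hθ using h3
  have key : ∀ k : ℕ, ∃ N : ℕ, ∀ (V : Type) [Fintype V] [DecidableEq V]
      (G : SimpleGraph V) (F : Finset V → Prop), (∀ M, F M → Conn G M) → Loc G F h x0 →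
      ∀ W, Pk F k W ∨ Ht F W N := by
    intro k
    induction k with
    | zero =>
      refine ⟨0, fun V _ _ G F _ _ W => Or.inl ⟨fun i => i.elim0, fun i => i.elim0, fun v => ?_⟩⟩
      simp
    | succ k ih =>
      obtain ⟨N, hN⟩ := ih
      set θ0 : ℕ := ∑ n ∈ range (4 * (k + 1) + 1), θ n with hθ0
      set q : ℕ := 2500 * (k + 1) + x0 + 1 + θ0 with hq
      set B0 : ℕ := 2 * q + 2 * N + h (k + 1) + 10 with hB0
      refine ⟨B0 + (k + 1 + 1) * q, fun V _ _ G F hF hL W => ?_⟩
      by_contra hcon
      rw [not_or] at hcon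
      obtain ⟨hPk, hHt⟩ := hcon
      have hNN : ∀ W', Pk F k W' ∨ Ht F W' N := fun W' => hN V G F hF hL W'
      have hPk' : ∀ W', W' ⊆ W → ¬ Pk F (k + 1) W' := fun W' hW' hp => hPk (hp.mono hW')
      have hHav : ∀ W' : Finset V, W' ⊆ W → ¬ Ht F W' B0 → Hav G F W' (2 * q) := by
        intro W' hW' hn
        exact h1 V G F hF N k (2 * q) W' hNN (hPk' W' hW')
          (fun h' => hn (h'.mono subset_rfl (by omega)))
      obtain ⟨W', T, O, hS, hO, hH⟩ := h2 V G F hF W (k + 1) q x0 B0 (by omega) hHav (by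
        intro C hC hC1 hn
        exact hL (k + 1) C hC1 (hPk' C hC) (fun h' => hn (h'.mono subset_rfl (by omega)))
          (h1 V G F hF N k 10 C hNN (hPk' C hC)
            (fun h' => hn (h'.mono subset_rfl (by omega))))) (k + 1) le_rfl hHt
      have hTcard : T.card ≤ 4 * (k + 1) := by
        have e1 : T = (O.map Prod.snd).flatten.toFinset := by
          ext t
          rw [List.mem_toFinset]
          exact hS.2.2.2.2.1 t
        rw [e1]
        refine (List.toFinset_card_le _).trans ?_
        refine (eng_flatten _ ?_).trans ?_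
        · intro o ho
          rw [List.mem_map] at ho
          obtain ⟨a, ha, rfl⟩ := ho
          exact eng_prom (hS.2.2.2.2.2.1 a ha).2.2.2
        · rw [List.length_map, hO]
      have hWW : W' ⊆ W := hS.2.1
      have hθn : θ T.card ≤ θ0 := by
        rw [hθ0]
        exact single_le_sum (f := θ) (fun i _ => Nat.zero_le _)
          (mem_range.2 (Nat.lt_succ_of_le hTcard))
      have hA : Hav G F W' (2 * q) := hHav W' hWW (fun h' => hH (h'.mono subset_rfl (by omega)))
      have hB : Hav G F (W' \ T) (2 * q) := by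
        refine hHav _ (sdiff_subset.trans hWW) (fun h' => hH ?_)
        exact (eng_ht h').mono subset_rfl (by omega)
      obtain ⟨R, hR⟩ := hθ T.card V G F hF W' T hS.1 rfl hS.2.2.1 (hA.mono (by omega))
        (hB.mono (by omega))
      have := h4 V G F W W' T O R hS hR
      rw [hO] at this
      exact hPk this
  choose f hf using key
  exact ⟨f, fun V _ _ G F hF hL W k => hf k V G F hF hL W⟩

end ErdPos
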