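import Pool.Agent.Helper72.EP.Spec1

set_option autoImplicit false

namespace ErdPos

open Finset

theorem itr (hITR1 : ST_ITR1) : ST_ITR := by
  intro V _ _ G F hF W K q x0 B0 hq H1 H2 j
  induction j generalizing B0 with
  | zero =>
    intro _ hHt
    refine ⟨W, ∅, [], ⟨empty_subset _, subset_rfl, ?_, ?_, ?_, ?_, ?_⟩, rfl, ?_⟩
    · intro C _ _
      simp
    · simp
    · intro t; simp
    · intro o ho; simp at ho
    · intro v; simp
    · intro h
      exact hHt (h.mono subset_rfl (by omega))
  | succ j ih =>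
    intro hj hHt
    obtain ⟨W', T, O, hS, hO, hH⟩ := ih (B0 + q)
      (fun W' hW' h => H1 W' hW' (fun h' => h (h'.mono subset_rfl (by omega))))
      (fun C hC hC1 h => H2 C hC hC1 (fun h' => h (h'.mono subset_rfl (by omega))))
      (by omega) (fun h => hHt (h.mono subset_rfl (by
        have : (j + 1 + 1) * q = (j + 1) * q + q := by ring
        omega)))
    have hW' : W' ⊆ W := hS.2.1
    have hHav : Hav G F W' (2 * q) := H1 W' hW' (fun h => hH (h.mono subset_rfl (by omega)))
    obtain ⟨W2, T2, O2, hS2, hO2, hH2⟩ := hITR1 V G F hF W W' T O q x0 hS hHav (by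
      rw [hO]
      have : 2500 * j ≤ 2500 * K := by omega
      omega) (by
      intro C hC hN
      refine H2 C (hC.1.trans hW') hC.2.1 (fun h => hH ?_)
      have hb := hC.isBt hHav (by omega)
      rw [← hb.eq_bt] at h
      have h1 := ht_of_bt hF hHav (by omega : (Nb G W' C).card ≤ 2 * q) h
      exact h1.mono subset_rfl (by omega))
    exact ⟨W2, T2, O2, hS2, by rw [hO2, hO], hH2 _ hH⟩

end ErdPos
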